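import Pool.Agent.H59.Inc.Move

/-!
# A finite injury construction of a perfect class meeting monotone requirements on pairs
-/

set_option autoImplicit false

namespace Pool.Agent.H59.Inc

open Pool.Agent.H77.Thin Pool.Agent.H59.Hif Encodable
open Nat.Partrec (Code)

section Constr

variable (Θ : ℕ → List Bool → List Bool → Bool)

/-- The move is valid. -/
def okm (m : Move) : Bool :=
  (decide (m.1.2.length = m.1.1.length) && !decide (m.1.1 = m.1.2)) &&
    (pre m.1.1 m.2.1 && pre m.1.2 m.2.2)

/-- The move `m` is available for the list of moves `M`: it satisfies a new requirement. -/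
def avail (M : List Move) (m : Move) : Bool :=
  okm m && (List.range (m.1.1.length + 1)).any fun j =>
    !Θ j (emb M m.1.1) (emb M m.1.2) && Θ j (emb M m.2.1) (emb M m.2.2)

/-- The first available move at nodes of length `k`. -/
def candk (s : ℕ) (M : List Move) (k : ℕ) : Option Move :=
  ((List.range s).filterMap fun q => (decode q : Option Move).bind fun m =>
    bif decide (m.1.1.length = k) && avail Θ M m then some m else none).head?

/-- The first available move, at nodes of least length. -/
def candm (s : ℕ) (M : List Move) : Option Move :=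
  ((List.range s).filterMap fun k => candk Θ s M k).head?

/-- One stage. -/
def stp (s : ℕ) (M : List Move) : List Move :=
  ((candm Θ s M).map fun m => M ++ [m]).getD M

/-- The list of moves made before stage `s`. -/
def sts (s : ℕ) : List Move := Nat.rec [] (fun s M => stp Θ s M) s

/-- The embedding at stage `s`. -/
def embs (s : ℕ) (ρ : List Bool) : List Bool := emb (sts Θ s) ρ

variable {Θ}

theorem okm_iff {m : Move} : okm m = true ↔ Valid m := by
  simp only [okm, Bool.and_eq_true, decide_eq_true_eq, Bool.not_eq_true',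
    decide_eq_false_iff_not, pre_iff]
  constructor
  · rintro ⟨⟨h1, h2⟩, h3, h4⟩
    refine ⟨h1, h2, fun i => ?_⟩
    cases i
    · exact h3
    · exact h4
  · rintro ⟨h1, h2, h3⟩
    exact ⟨⟨h1, h2⟩, h3 false, h3 true⟩

theorem avail_iff {M : List Move} {m : Move} : avail Θ M m = true ↔
    Valid m ∧ ∃ j ≤ m.1.1.length, Θ j (emb M m.1.1) (emb M m.1.2) = false ∧
      Θ j (emb M m.2.1) (emb M m.2.2) = true := by
  simp only [avail, Bool.and_eq_true, okm_iff, List.any_eq_true, List.mem_range,
    Bool.not_eq_true', Nat.lt_succ_iff]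

theorem candk_spec {s : ℕ} {M : List Move} {k : ℕ} {m : Move} (h : candk Θ s M k = some m) :
    m.1.1.length = k ∧ avail Θ M m = true := by
  have h1 := List.mem_of_mem_head? (Option.mem_def.2 h)
  rw [List.mem_filterMap] at h1
  obtain ⟨q, _, h2⟩ := h1
  cases hd : (decode q : Option Move) with
  | none => rw [hd] at h2; exact absurd h2 (by simp)
  | some m' =>
    rw [hd, Option.bind_some] at h2
    cases hc : (decide (m'.1.1.length = k) && avail Θ M m') with
    | false => rw [hc] at h2; exact absurd h2 (by simp)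
    | true =>
      rw [hc, cond_true, Option.some.injEq] at h2
      rw [Bool.and_eq_true, decide_eq_true_eq, h2] at hc
      exact hc

theorem candm_spec {s : ℕ} {M : List Move} {m : Move} (h : candm Θ s M = some m) :
    avail Θ M m = true := by
  have h1 := List.mem_of_mem_head? (Option.mem_def.2 h)
  rw [List.mem_filterMap] at h1
  obtain ⟨k, _, h2⟩ := h1
  exact (candk_spec h2).2

theorem candm_min {s : ℕ} {M : List Move} {m : Move} (h : avail Θ M m = true)
    (h1 : encode m < s) (h2 : m.1.1.length < s) :
    ∃ m', candm Θ s M = some m' ∧ m'.1.1.length ≤ m.1.1.length := by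
  obtain ⟨q, _, b, hb, hb'⟩ := head_filterMap_range (fun q => (decode q : Option Move).bind
    fun m' => bif decide (m'.1.1.length = m.1.1.length) && avail Θ M m' then some m' else none)
    s h1 (a := m) (by simp [encodek, h])
  have h3 : candk Θ s M m.1.1.length = some b := hb'
  obtain ⟨k, hk, c, hc, hc'⟩ := head_filterMap_range (fun k => candk Θ s M k) s h2 h3
  refine ⟨c, hc', ?_⟩
  rw [(candk_spec hc).1]
  exact hk

theorem sts_succ (s : ℕ) : sts Θ (s + 1) = stp Θ s (sts Θ s) := rfl

theorem sts_none {s : ℕ} (h : candm Θ s (sts Θ s) = none) : sts Θ (s + 1) = sts Θ s := by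
  rw [sts_succ, stp, h]
  rfl

theorem sts_some {s : ℕ} {m : Move} (h : candm Θ s (sts Θ s) = some m) :
    sts Θ (s + 1) = sts Θ s ++ [m] := by
  rw [sts_succ, stp, h]
  rfl

theorem candm_valid {s : ℕ} {m : Move} (h : candm Θ s (sts Θ s) = some m) : Valid m :=
  (avail_iff.1 (candm_spec h)).1

theorem sts_valid (s : ℕ) : ∀ m ∈ sts Θ s, Valid m := by
  induction s with
  | zero => intro m hm; exact absurd hm (by simp [sts])
  | succ s ih =>
    cases h : candm Θ s (sts Θ s) with
    | none => rw [sts_none h]; exact ih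
    | some m' =>
      rw [sts_some h]
      intro m hm
      rcases List.mem_append.1 hm with h1 | h1
      · exact ih m h1
      · rw [List.mem_singleton.1 h1]
        exact candm_valid h

theorem embs_none {s : ℕ} (h : candm Θ s (sts Θ s) = none) (ρ : List Bool) :
    embs Θ (s + 1) ρ = embs Θ s ρ := by
  unfold embs
  rw [sts_none h]

theorem embs_some {s : ℕ} {m : Move} (h : candm Θ s (sts Θ s) = some m) (ρ : List Bool) :
    embs Θ (s + 1) ρ = embs Θ s (mv m ρ) := by
  unfold embs
  rw [sts_some h, emb_snoc]

theorem embs_mono (s : ℕ) {ρ ρ' : List Bool} (h : ρ <+: ρ') : embs Θ s ρ <+: embs Θ s ρ' :=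
  emb_mono (sts_valid s) h

theorem embs_len (s : ℕ) (ρ : List Bool) : ρ.length ≤ (embs Θ s ρ).length :=
  emb_len (sts_valid s) ρ

theorem embs_comp (s : ℕ) {α β : List Bool} (h : Comp (embs Θ s α) (embs Θ s β)) : Comp α β :=
  emb_comp (sts_valid s) h

/-- Later embeddings factor through earlier ones. -/
theorem embs_factor {s t : ℕ} (h : s ≤ t) (ρ : List Bool) :
    ∃ ρ' : List Bool, ρ.length ≤ ρ'.length ∧ embs Θ t ρ = embs Θ s ρ' := by
  induction t, h using Nat.le_induction generalizing ρ with
  | base => exact ⟨ρ, le_rfl, rfl⟩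
  | succ t _ ih =>
    cases hc : candm Θ t (sts Θ t) with
    | none =>
      rw [embs_none hc]
      exact ih ρ
    | some m =>
      rw [embs_some hc]
      obtain ⟨ρ', h1, h2⟩ := ih (mv m ρ)
      exact ⟨ρ', le_trans (mv_len (candm_valid hc) ρ) h1, h2⟩

/-- From stage `s₀` on, moves are made only at nodes of length at least `k`. -/
def Quiet (Θ : ℕ → List Bool → List Bool → Bool) (k s₀ : ℕ) : Prop :=
  ∀ s, s₀ ≤ s → ∀ m, candm Θ s (sts Θ s) = some m → k ≤ m.1.1.length

theorem Quiet.const {k s₀ : ℕ} (h : Quiet Θ k s₀) {s : ℕ} (hs : s₀ ≤ s) {ρ : List Bool}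
    (hρ : ρ.length < k) : embs Θ s ρ = embs Θ s₀ ρ := by
  induction s, hs using Nat.le_induction with
  | base => rfl
  | succ s hs ih =>
    rw [← ih]
    cases hc : candm Θ s (sts Θ s) with
    | none => exact embs_none hc ρ
    | some m =>
      rw [embs_some hc, mv_short (candm_valid hc) (lt_of_lt_of_le hρ (h s hs m hc))]

variable (hΘm : ∀ j α β α' β', α <+: α' → β <+: β' → Θ j α β = true → Θ j α' β' = true)

include hΘm

theorem exists_quiet (k : ℕ) : ∃ s₀, Quiet Θ k s₀ := by
  classical
  induction k with
  | zero => exact ⟨0, fun _ _ _ _ => Nat.zero_le _⟩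
  | succ k ih =>
    obtain ⟨s₀, hs₀⟩ := ih
    let A : Finset ((List Bool × List Bool) × ℕ) :=
      ((strs k).toFinset ×ˢ (strs k).toFinset) ×ˢ Finset.range (k + 1)
    let F : ℕ → Finset ((List Bool × List Bool) × ℕ) := fun s =>
      A.filter fun p => Θ p.2 (embs Θ s p.1.1) (embs Θ s p.1.2) = true
    have hA : ∀ p ∈ A, p.1.1.length = k ∧ p.1.2.length = k := by
      intro p hp
      rw [Finset.mem_product, Finset.mem_product] at hp
      exact ⟨mem_strs.1 (List.mem_toFinset.1 hp.1.1), mem_strs.1 (List.mem_toFinset.1 hp.1.2)⟩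
    have hup : ∀ s, s₀ ≤ s → ∀ m, candm Θ s (sts Θ s) = some m → ∀ π : List Bool,
        π.length = k → embs Θ s π <+: embs Θ (s + 1) π := by
      intro s hs m hc π hπ
      rw [embs_some hc]
      refine embs_mono s (mv_ge (candm_valid hc) ?_)
      rw [hπ]
      exact hs₀ s hs m hc
    have hF : ∀ s, s₀ ≤ s → F s ⊆ F (s + 1) := by
      intro s hs p hp
      rw [Finset.mem_filter] at hp ⊢
      refine ⟨hp.1, ?_⟩
      obtain ⟨hl1, hl2⟩ := hA p hp.1
      cases hc : candm Θ s (sts Θ s) with
      | none => rw [embs_none hc, embs_none hc]; exact hp.2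
      | some m => exact hΘm _ _ _ _ _ (hup s hs m hc _ hl1) (hup s hs m hc _ hl2) hp.2
    have hFF : ∀ s t, s₀ ≤ s → s ≤ t → F s ⊆ F t := by
      intro s t hs hst
      induction t, hst using Nat.le_induction with
      | base => exact Finset.Subset.refl _
      | succ t hst ih => exact ih.trans (hF t (le_trans hs hst))
    have hstrict : ∀ s, s₀ ≤ s → ∀ m, candm Θ s (sts Θ s) = some m → m.1.1.length = k →
        (F s).card < (F (s + 1)).card := by
      intro s hs m hc hm
      refine Finset.card_lt_card (Finset.ssubset_iff_of_subset (hF s hs) |>.2 ?_)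
      obtain ⟨hval, j, hj, h1, h2⟩ := avail_iff.1 (candm_spec hc)
      refine ⟨(m.1, j), ?_, ?_⟩
      · rw [Finset.mem_filter, Finset.mem_product, Finset.mem_product]
        refine ⟨⟨⟨List.mem_toFinset.2 (mem_strs.2 hm), List.mem_toFinset.2 (mem_strs.2 ?_)⟩,
          Finset.mem_range.2 (by omega)⟩, ?_⟩
        · rw [hval.1, hm]
        · have h3 := mv_root hval false
          have h4 := mv_root hval true
          simp only [node, root, cond_false, cond_true] at h3 h4
          rw [embs_some hc, embs_some hc, h3, h4]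
          exact h2
      · rw [Finset.mem_filter]
        rintro ⟨_, h3⟩
        have h4 : Θ j (embs Θ s m.1.1) (embs Θ s m.1.2) = true := h3
        have h5 : Θ j (embs Θ s m.1.1) (embs Θ s m.1.2) = false := h1
        rw [h4] at h5
        exact absurd h5 (by simp)
    by_contra hcon
    push Not at hcon
    have hex : ∀ s₁, s₀ ≤ s₁ → ∃ s, s₁ ≤ s ∧ ∃ m, candm Θ s (sts Θ s) = some m ∧
        m.1.1.length = k := by
      intro s₁ hs₁
      have h1 := hcon s₁
      unfold Quiet at h1
      push Not at h1
      obtain ⟨s, hs, m, hm, hlt⟩ := h1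
      refine ⟨s, hs, m, hm, ?_⟩
      have := hs₀ s (le_trans hs₁ hs) m hm
      omega
    have hbig : ∀ n, ∃ s, s₀ ≤ s ∧ n ≤ (F s).card := by
      intro n
      induction n with
      | zero => exact ⟨s₀, le_rfl, Nat.zero_le _⟩
      | succ n ih =>
        obtain ⟨s, hs, hn⟩ := ih
        obtain ⟨t, ht, m, hm, hmk⟩ := hex s hs
        refine ⟨t + 1, by omega, ?_⟩
        have h1 := hstrict t (le_trans hs ht) m hm hmk
        have h2 := Finset.card_le_card (hFF s t hs ht)
        omega
    obtain ⟨s, _, hs⟩ := hbig (A.card + 1)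
    have h3 : (F s).card ≤ A.card := Finset.card_le_card (Finset.filter_subset _ _)
    omega

end Constr

end Pool.Agent.H59.Inc
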