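import Pool.Agent.H59.Inc.Theta
import Pool.Agent.H59.Hif.Minimal

/-!
# A thin class with pairwise incomparable members, the hyperimmune-free ones being minimal
-/

set_option autoImplicit false

namespace Pool.Agent.H59.Inc

open Pool.Agent.H77.Thin Pool.Agent.H59.Hif Encodable
open Nat.Partrec (Code)

theorem node_of {z : ℕ → Bool} (hz : z ∈ paths TT) {ν : List Bool} (hν : Ini (LL ν) z) {k : ℕ}
    (hk : ν.length ≤ k) : ∃ ρ : List Bool, ρ.length = k ∧ ν <+: ρ ∧ Ini (LL ρ) z := by
  obtain ⟨ρ, h1, h2⟩ := mem_TT.1 hz k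
  exact ⟨ρ, h1, LL_prefix hν h2 (by omega), h2⟩

theorem child_of {z : ℕ → Bool} (hz : z ∈ paths TT) {ν : List Bool} (hν : Ini (LL ν) z) :
    ∃ i : Bool, Ini (LL (ν ++ [i])) z := by
  obtain ⟨ρ, h1, ⟨t, ht⟩, h2⟩ := node_of hz hν (k := ν.length + 1) (Nat.le_succ _)
  have h3 : t.length = 1 := by
    have := congrArg List.length ht
    rw [List.length_append] at this
    omega
  obtain ⟨i, hi⟩ := List.length_eq_one_iff.1 h3
  refine ⟨i, ?_⟩
  rw [← hi, ht]
  exact h2

theorem snoc_ne (π : List Bool) (i : Bool) : π ++ [i] ≠ π ++ [!i] := by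
  intro h
  have h1 := List.append_cancel_left h
  cases i <;> exact absurd h1 (by simp)

/-- Above a long enough node the class is inside or outside a given `Π⁰₁` class. -/
theorem decide_tree (e : Code) {ν : List Bool} (h0 : Nat.pair 0 (encode e) < ν.length) :
    tree e (LL ν) = false ∨ ∀ z ∈ paths TT, Ini (LL ν) z → z ∈ paths (tree e) := by
  have hne : ν ≠ [] := by
    rintro rfl
    simp at h0
  obtain ⟨π, i, rfl⟩ := List.eq_nil_or_concat ν |>.resolve_left hne
  rw [List.concat_eq_append] at h0 ⊢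
  have key : tree e (LL (π ++ [i])) = false ∨ ∀ τ, π ++ [i] <+: τ → tree e (LL τ) = true := by
    rcases LL_main (a₀ := π ++ [i]) (a₁ := π ++ [!i]) (by simp) (snoc_ne π i)
      (j := Nat.pair 0 (encode e)) (le_of_lt h0) with h | h
    · rw [Theta_zero, Bool.not_eq_true'] at h
      exact Or.inl h
    · right
      intro τ hτ
      have := h τ (π ++ [!i]) hτ (List.prefix_refl _)
      rwa [Theta_zero, Bool.not_eq_false'] at this
  refine key.imp id fun h z hz hν n => ?_
  obtain ⟨ρ, h2, h3, h4⟩ := node_of hz hν (k := max n (π ++ [i]).length) (le_max_right _ _)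
  refine tree_closed e _ (LL ρ) ?_ (h ρ h3)
  have h5 := LL_len ρ
  have h6 := seg_prefix z (show n ≤ (LL ρ).length by
    have := le_max_left n (π ++ [i]).length
    omega)
  rwa [show seg z (LL ρ).length = LL ρ from h4] at h6

theorem isClopen_nodes (K : ℕ) (q : List Bool → Bool) :
    IsClopen {z : ℕ → Bool | ∃ ν : List Bool, ν.length = K ∧ q ν = true ∧ Ini (LL ν) z} := by
  classical
  have h1 : {z : ℕ → Bool | ∃ ν : List Bool, ν.length = K ∧ q ν = true ∧ Ini (LL ν) z} =
      ⋃ ν ∈ (strs K).toFinset.filter (fun ν => q ν = true), {z | Ini (LL ν) z} := by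
    ext z
    simp only [Set.mem_ofPred_eq, Set.mem_iUnion, Finset.mem_filter, List.mem_toFinset,
      mem_strs, exists_prop, and_assoc]
  rw [h1]
  refine ⟨isClosed_biUnion_finset fun ν _ => isClosed_ini _, ?_⟩
  exact isOpen_biUnion fun ν _ => isOpen_ini _

theorem thin_TT : IsThin (paths TT) := by
  refine ⟨isPi01_paths prim_TT TT_closed, fun Q hQ hQP => ?_⟩
  obtain ⟨e, rfl⟩ := exists_tree hQ
  set K := Nat.pair 0 (encode e) + 1 with hK
  refine ⟨_, isClopen_nodes K (fun ν => tree e (LL ν)), ?_⟩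
  ext z
  simp only [Set.mem_inter_iff, Set.mem_ofPred_eq]
  constructor
  · intro hz
    have hzP : z ∈ paths TT := hQP hz
    refine ⟨hzP, ?_⟩
    obtain ⟨ν, h1, h2⟩ := mem_TT.1 hzP K
    refine ⟨ν, h1, ?_, h2⟩
    rw [← show seg z (LL ν).length = LL ν from h2]
    exact hz _
  · rintro ⟨hzP, ν, h1, h2, h3⟩
    rcases decide_tree e (ν := ν) (by omega) with h | h
    · rw [h2] at h
      exact absurd h (by simp)
    · exact h z hzP h3

theorem noncomputable_TT {c : ℕ → Bool} (hc : c ∈ paths TT) : ¬ Computable c := by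
  intro hcomp
  obtain ⟨σ, hσ, hσc⟩ := nbhd thin_TT (isPi01_singleton hcomp)
    (Set.singleton_subset_iff.2 hc) (Set.mem_singleton _)
  obtain ⟨ρ, h1, h2⟩ := mem_TT.1 hc σ.length
  have h3 : σ <+: LL ρ := by
    have h4 := hσ.pre (n := (LL ρ).length) (by have := LL_len ρ; omega)
    rwa [show seg c (LL ρ).length = LL ρ from h2] at h4
  have h5 : ∀ i : Bool, Ini (LL (ρ ++ [i])) c := by
    intro i
    obtain ⟨z, hz, hi⟩ := LL_member (ρ ++ [i])
    have h6 : z = c := hσc z hz (ini_mono (h3.trans (LL_mono (List.prefix_append _ _))) hi)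
    rwa [h6] at hi
  exact not_comp_snoc ρ (LL_unique (h5 false) (h5 true))

/-! ### Minimality -/

/-- If the functional does not split above a node, it is constant above the node. -/
theorem const_of_nosplit {e : Code} (hv : IsFun (val e)) {π : List Bool}
    (htot : ∀ z ∈ paths TT, Ini (LL π) z → ∀ n, ∃ l, (val e (seg z l) n).isSome = true)
    (hns : ∀ τ₀ τ₁, π ++ [false] <+: τ₀ → π ++ [true] <+: τ₁ →
      splits e (LL τ₀) (LL τ₁) = false) {z z' : ℕ → Bool} (hz : z ∈ paths TT)
    (hz' : z' ∈ paths TT) (hi : Ini (LL π) z) (hi' : Ini (LL π) z') :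
    out (val e) z = out (val e) z' := by
  have key : ∀ z₀ ∈ paths TT, ∀ z₁ ∈ paths TT, Ini (LL (π ++ [false])) z₀ →
      Ini (LL (π ++ [true])) z₁ → out (val e) z₀ = out (val e) z₁ := by
    intro z₀ h0 z₁ h1 hi0 hi1
    funext n
    by_contra hne
    have hup : ∀ z, Ini (LL (π ++ [false])) z ∨ Ini (LL (π ++ [true])) z → Ini (LL π) z := by
      rintro z (h | h)
      · exact ini_mono (LL_mono (List.prefix_append _ _)) h
      · exact ini_mono (LL_mono (List.prefix_append _ _)) h
    obtain ⟨l₀, hl₀⟩ := htot z₀ h0 (hup _ (Or.inl hi0)) n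
    obtain ⟨l₁, hl₁⟩ := htot z₁ h1 (hup _ (Or.inr hi1)) n
    obtain ⟨a, ha⟩ := Option.isSome_iff_exists.1 hl₀
    obtain ⟨b, hb⟩ := Option.isSome_iff_exists.1 hl₁
    rw [out_eq hv ha, out_eq hv hb] at hne
    obtain ⟨τ₀, h2, h3, h4⟩ := node_of h0 hi0 (k := l₀ + l₁ + n + 1 + (π ++ [false]).length)
      (by omega)
    obtain ⟨τ₁, h5, h6, h7⟩ := node_of h1 hi1 (k := l₀ + l₁ + n + 1 + (π ++ [true]).length)
      (by omega)
    have h8 := LL_len τ₀
    have h9 := LL_len τ₁
    have h10 : val e (LL τ₀) n = some a := by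
      rw [← show seg z₀ (LL τ₀).length = LL τ₀ from h4]
      exact hv.mono (seg_prefix z₀ (by omega)) ha
    have h11 : val e (LL τ₁) n = some b := by
      rw [← show seg z₁ (LL τ₁).length = LL τ₁ from h7]
      exact hv.mono (seg_prefix z₁ (by omega)) hb
    have h12 := splits_of (e := e) (by omega) h10 h11 hne
    rw [hns τ₀ τ₁ h3 h6] at h12
    exact absurd h12 (by simp)
  obtain ⟨w₀, hw₀, hwi₀⟩ := LL_member (π ++ [false])
  obtain ⟨w₁, hw₁, hwi₁⟩ := LL_member (π ++ [true])
  have hw := key w₀ hw₀ w₁ hw₁ hwi₀ hwi₁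
  have hall : ∀ z ∈ paths TT, Ini (LL π) z → out (val e) z = out (val e) w₀ := by
    intro z hz hi
    obtain ⟨i, hi⟩ := child_of hz hi
    cases i
    · rw [key z hz w₁ hw₁ hi hwi₁, hw]
    · exact (key w₀ hw₀ z hz hwi₀ hi).symm
  rw [hall z hz hi, hall z' hz' hi']

/-- If the functional splits everywhere along `y` above a node, it is injective at `y`. -/
theorem inj_of_split {e : Code} (hv : IsFun (val e)) {ν : List Bool} {y z : ℕ → Bool}
    (hy : y ∈ paths TT) (hz : z ∈ paths TT) (hyν : Ini (LL ν) y) (hzν : Ini (LL ν) z)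
    (hsp : ∀ π, ν <+: π → Ini (LL π) y →
      splits e (LL (π ++ [false])) (LL (π ++ [true])) = true)
    (hne : z ≠ y) : out (val e) z ≠ out (val e) y := by
  classical
  have hex : ∃ k, ∃ ρ : List Bool, ρ.length = k ∧ Ini (LL ρ) y ∧ ¬ Ini (LL ρ) z := by
    by_contra hcon
    push Not at hcon
    refine hne (funext fun n => ?_)
    obtain ⟨ρ, h1, h2⟩ := mem_TT.1 hy (n + 1)
    have h3 := hcon (n + 1) ρ h1 h2
    have h4 := LL_len ρ
    have h5 : seg z (LL ρ).length = seg y (LL ρ).length := by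
      rw [show seg y (LL ρ).length = LL ρ from h2, show seg z (LL ρ).length = LL ρ from h3]
    have h6 : (seg z (LL ρ).length)[n]? = (seg y (LL ρ).length)[n]? := by rw [h5]
    rw [seg_getElem? z (by omega), seg_getElem? y (by omega)] at h6
    exact Option.some.inj h6
  obtain ⟨ρ, h1, h2, h3⟩ := Nat.find_spec hex
  have hmin : ∀ k < Nat.find hex, ∀ ρ : List Bool, ρ.length = k → Ini (LL ρ) y →
      Ini (LL ρ) z := by
    intro k hk ρ h4 h5
    by_contra h6
    exact Nat.find_min hex hk ⟨ρ, h4, h5, h6⟩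
  have hlt : ν.length < ρ.length := by
    by_contra hcon
    have h4 : ρ <+: ν := LL_prefix h2 hyν (by omega)
    exact h3 (ini_mono (LL_mono h4) hzν)
  have hne' : ρ ≠ [] := by
    rintro rfl
    simp at hlt
  obtain ⟨π, i, rfl⟩ := List.eq_nil_or_concat ρ |>.resolve_left hne'
  rw [List.concat_eq_append] at h1 h2 h3 hlt
  rw [List.length_append, List.length_singleton] at h1 hlt
  have hπy : Ini (LL π) y := ini_mono (LL_mono (List.prefix_append _ _)) h2
  have hπz : Ini (LL π) z := hmin π.length (by omega) π rfl hπy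
  have hνπ : ν <+: π := LL_prefix hyν hπy (by omega)
  obtain ⟨j, hj⟩ := child_of hz hπz
  have hij : j ≠ i := by
    rintro rfl
    exact h3 hj
  obtain ⟨n, _, i₁, hi₁, i₂, hi₂, a, b, ha, hb, hab⟩ := splits_iff.1 (hsp π hνπ hπy)
  have hout : ∀ (w : ℕ → Bool) (b' : Bool) (k c : ℕ), Ini (LL (π ++ [b'])) w →
      val e ((LL (π ++ [b'])).take k) n = some c → out (val e) w n = c := by
    intro w b' k c h4 h5
    exact out_ini hv (ini_mono (List.take_prefix _ _) h4) h5
  intro heq
  have h6 := congrFun heq n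
  cases i <;> cases j
  · exact hij rfl
  · rw [hout z true i₂ b hj hb, hout y false i₁ a h2 ha] at h6
    exact hab h6.symm
  · rw [hout z false i₁ a hj ha, hout y true i₂ b h2 hb] at h6
    exact hab h6
  · exact hij rfl

theorem minimal_TT {y : ℕ → Bool} (hy : y ∈ paths TT) (hyp : HyperimmuneFree y) :
    MinimalDegree y := by
  refine ⟨noncomputable_TT hy, fun x hx => ?_⟩
  obtain ⟨e, hv, hv'⟩ := exists_val (f := fun n => (x n).toNat) hx
  obtain ⟨σ, hσ, htot⟩ := nbhd_total prim_TT thin_TT hv hy hyp (fun n => by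
    obtain ⟨l, hl⟩ := hv' n
    exact ⟨l, by rw [hl]; rfl⟩)
  have hout : ∀ n, out (val e) y n = (x n).toNat := fun n => computes_out hv hv' n
  obtain ⟨ν, hν, hνy⟩ := mem_TT.1 hy (σ.length + Nat.pair 2 (encode e))
  have hσν : σ <+: LL ν := by
    have h4 := hσ.pre (n := (LL ν).length) (by have := LL_len ν; omega)
    rwa [show seg y (LL ν).length = LL ν from hνy] at h4
  have htot' : ∀ z ∈ paths TT, Ini (LL ν) z → ∀ n, ∃ l, (val e (seg z l) n).isSome = true := by
    intro z hz hi
    refine htot z ?_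
    rw [paths_cone]
    exact ⟨hz, ini_mono hσν hi⟩
  by_cases hcase : ∃ π, ν <+: π ∧ Ini (LL π) y ∧ ∀ τ₀ τ₁, π ++ [false] <+: τ₀ →
      π ++ [true] <+: τ₁ → splits e (LL τ₀) (LL τ₁) = false
  · left
    obtain ⟨π, hνπ, hπy, hns⟩ := hcase
    have h1 : Total (val e) (paths (cone TT (LL π))) := by
      intro z hz
      rw [paths_cone] at hz
      exact htot' z hz.1 (ini_mono (LL_mono hνπ) hz.2)
    have h2 : Computable fun n => (x n).toNat := by
      refine computable_of_const (prim_cone prim_TT (LL π)) (cone_closed TT_closed (LL π)) hv h1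
        (fun z hz => ?_) (y := y) (by rw [paths_cone]; exact ⟨hy, hπy⟩)
      rw [paths_cone] at hz
      rw [const_of_nosplit hv (fun w hw hwi => htot' w hw (ini_mono (LL_mono hνπ) hwi)) hns
        hz.1 hy hz.2 hπy]
      exact funext hout
    have h7 : Primrec fun m : ℕ => !decide (m = 0) :=
      Primrec.not.comp (prim_beq Primrec.id (Primrec.const 0))
    refine (h7.to_comp.comp h2).of_eq fun n => ?_
    cases x n <;> rfl
  · right
    push Not at hcase
    have hsp : ∀ π, ν <+: π → Ini (LL π) y →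
        splits e (LL (π ++ [false])) (LL (π ++ [true])) = true := by
      intro π hνπ hπy
      have hle := hνπ.length_le
      rcases LL_main (a₀ := π ++ [false]) (a₁ := π ++ [true]) (by simp) (snoc_ne π false)
        (j := Nat.pair 2 (encode e)) (by rw [List.length_append]; omega) with h | h
      · rwa [Theta_two] at h
      · obtain ⟨τ₀, τ₁, h1, h2, h3⟩ := hcase π hνπ hπy
        have h4 := h τ₀ τ₁ h1 h2
        rw [Theta_two] at h4
        exact absurd h4 (by simpa using h3)
    refine turing_of_inj (prim_cone prim_TT (LL ν)) (cone_closed TT_closed (LL ν)) hv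
      (fun z hz => ?_) (by rw [paths_cone]; exact ⟨hy, hνy⟩) hout (fun z hz hne => ?_)
    · rw [paths_cone] at hz
      exact htot' z hz.1 hz.2
    · rw [paths_cone] at hz
      exact inj_of_split hv hy hz.1 hνy hz.2 hsp hne

/-! ### Incomparability -/

/-- Two different members have different nodes of all large lengths. -/
theorem exists_split_node {y z : ℕ → Bool} (hy : y ∈ paths TT) (hz : z ∈ paths TT)
    (hne : y ≠ z) (K : ℕ) : ∃ a₀ a₁ : List Bool, K ≤ a₀.length ∧ a₁.length = a₀.length ∧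
      a₀ ≠ a₁ ∧ Ini (LL a₀) y ∧ Ini (LL a₁) z := by
  obtain ⟨n, hn⟩ := Function.ne_iff.1 hne
  obtain ⟨a₀, h1, h2⟩ := mem_TT.1 hy (max K (n + 1))
  obtain ⟨a₁, h3, h4⟩ := mem_TT.1 hz (max K (n + 1))
  refine ⟨a₀, a₁, by rw [h1]; exact le_max_left _ _, by rw [h1, h3], ?_, h2, h4⟩
  rintro rfl
  have h5 := LL_len a₀
  have h6 := le_max_right K (n + 1)
  have h7 : seg y (LL a₀).length = seg z (LL a₀).length := by
    rw [show seg y (LL a₀).length = LL a₀ from h2, show seg z (LL a₀).length = LL a₀ from h4]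
  have h8 : (seg y (LL a₀).length)[n]? = (seg z (LL a₀).length)[n]? := by rw [h7]
  rw [seg_getElem? y (by omega), seg_getElem? z (by omega)] at h8
  exact hn (Option.some.inj h8)

theorem ini_getElem? {σ : List Bool} {z : ℕ → Bool} (h : Ini σ z) {n : ℕ} (hn : n < σ.length) :
    σ[n]? = some (z n) := by
  have h1 := seg_getElem? z hn
  rwa [show seg z σ.length = σ from h] at h1

theorem ini_take {σ : List Bool} {z : ℕ → Bool} (h : Ini σ z) {i : ℕ} (hi : i ≤ σ.length) :
    σ.take i = seg z i := by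
  have h1 := seg_prefix z hi
  rw [show seg z σ.length = σ from h] at h1
  have h2 := List.prefix_iff_eq_take.1 h1
  rw [seg_length] at h2
  exact h2.symm

/-- No member of the class computes another one. -/
theorem incomparable_TT {y z : ℕ → Bool} (hy : y ∈ paths TT) (hz : z ∈ paths TT)
    (hne : y ≠ z) : ¬ TuringReducible (chr z) (chr y) := by
  intro hred
  obtain ⟨e, hv, hv'⟩ := exists_val (f := fun n => (z n).toNat) hred
  have hout : ∀ n, out (val e) y n = (z n).toNat := fun n => computes_out hv hv' n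
  obtain ⟨a₀, a₁, hK, hl, hne', h0, h1⟩ := exists_split_node hy hz hne (Nat.pair 1 (encode e))
  rcases LL_main hl hne' hK with h | h
  · rw [Theta_one] at h
    obtain ⟨n, hn, i, hi, w, hw, hwne⟩ := dg_iff.1 h
    rw [ini_take h0 hi] at hw
    refine hwne ?_
    rw [ini_getElem? h1 hn, Option.map_some, ← hout n, out_eq hv hw]
  · obtain ⟨z', hz', hi', hne''⟩ : ∃ z' ∈ paths TT, Ini (LL a₁) z' ∧ z' ≠ z := by
      by_contra hcon
      push Not at hcon
      have h5 : ∀ i : Bool, Ini (LL (a₁ ++ [i])) z := by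
        intro i
        obtain ⟨w, hw, hi⟩ := LL_member (a₁ ++ [i])
        have h6 := hcon w hw (ini_mono (LL_mono (List.prefix_append _ _)) hi)
        rwa [h6] at hi
      exact not_comp_snoc a₁ (LL_unique (h5 false) (h5 true))
    obtain ⟨n, hn⟩ := Function.ne_iff.1 hne''
    obtain ⟨l, hl'⟩ := hv' n
    obtain ⟨τ₀, h2, h3, h4⟩ := node_of hy h0 (k := l + a₀.length) (by omega)
    obtain ⟨τ₁, h5, h6, h7⟩ := node_of hz' hi' (k := n + 1 + a₁.length) (by omega)
    have h8 := LL_len τ₀
    have h9 := LL_len τ₁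
    have h10 := h τ₀ τ₁ h3 h6
    rw [Theta_one] at h10
    have h11 : dg e (LL τ₀) (LL τ₁) = true := by
      refine dg_iff.2 ⟨n, by omega, l, by omega, (z n).toNat, ?_, ?_⟩
      · rw [ini_take h4 (by omega)]
        exact hl'
      · rw [ini_getElem? h7 (by omega), Option.map_some]
        intro h12
        have h13 := Option.some.inj h12
        apply hn
        revert h13
        cases z' n <;> cases z n <;> simp
    rw [h10] at h11
    exact absurd h11 (by simp)

end Pool.Agent.H59.Inc
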