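import Pool.Agent.H59.Hif.Generic

/-!
# Moves: re-indexing the full binary tree above two nodes of the same length
-/

set_option autoImplicit false

namespace Pool.Agent.H59.Inc

open Pool.Agent.H77.Thin Pool.Agent.H59.Hif Encodable
open Nat.Partrec (Code)

/-- A move: two nodes and the new roots of the subtrees above them. -/
abbrev Move : Type := (List Bool × List Bool) × List Bool × List Bool

/-- The nodes of a move. -/
def node (m : Move) (i : Bool) : List Bool := bif i then m.1.2 else m.1.1

/-- The new root of the subtree above `node m i`. -/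
def root (m : Move) (i : Bool) : List Bool := bif i then m.2.2 else m.2.1

/-- The re-indexing of strings by a move. -/
def mv (m : Move) (ρ : List Bool) : List Bool :=
  bif pre m.1.1 ρ then m.2.1 ++ ρ.drop m.1.1.length else
  bif pre m.1.2 ρ then m.2.2 ++ ρ.drop m.1.2.length else ρ

/-- The move goes upwards, from two different nodes of the same length. -/
def Valid (m : Move) : Prop :=
  m.1.2.length = m.1.1.length ∧ m.1.1 ≠ m.1.2 ∧ ∀ i : Bool, node m i <+: root m i

theorem Valid.len {m : Move} (h : Valid m) (i : Bool) : (node m i).length = m.1.1.length := by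
  cases i
  · rfl
  · exact h.1

/-- Comparability of strings. -/
def Comp (α β : List Bool) : Prop := α <+: β ∨ β <+: α

theorem Comp.symm {α β : List Bool} (h : Comp α β) : Comp β α := Or.symm h

theorem comp_of_prefix {α β γ : List Bool} (h1 : α <+: γ) (h2 : β <+: γ) : Comp α β :=
  List.prefix_or_prefix_of_prefix h1 h2

/-- Prefixes of comparable strings are comparable. -/
theorem Comp.down {α β α' β' : List Bool} (h : Comp α β) (h1 : α' <+: α) (h2 : β' <+: β) :
    Comp α' β' := by
  rcases h with h | h
  · exact comp_of_prefix (h1.trans h) h2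
  · exact comp_of_prefix h1 (h2.trans h)

theorem Comp.eq {α β : List Bool} (h : Comp α β) (hl : α.length = β.length) : α = β := by
  rcases h with h | h
  · exact h.eq_of_length hl
  · exact (h.eq_of_length hl.symm).symm

theorem not_comp_snoc (π : List Bool) : ¬ Comp (π ++ [false]) (π ++ [true]) := by
  intro h
  have := h.eq (by simp)
  simp at this

theorem Valid.inj {m : Move} (hm : Valid m) {i j : Bool} (h : Comp (node m i) (node m j)) :
    i = j := by
  have h1 := h.eq (by rw [hm.len, hm.len])
  cases i <;> cases j
  · rfl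
  · exact absurd h1 hm.2.1
  · exact absurd h1.symm hm.2.1
  · rfl

theorem mv_cases (m : Move) (ρ : List Bool) :
    (∃ i r, ρ = node m i ++ r ∧ mv m ρ = root m i ++ r) ∨
      (mv m ρ = ρ ∧ ∀ i, ¬ node m i <+: ρ) := by
  cases h0 : pre m.1.1 ρ with
  | true =>
    left
    obtain ⟨r, hr⟩ := pre_iff.1 h0
    refine ⟨false, r, hr.symm, ?_⟩
    unfold mv root
    rw [h0, cond_true, cond_false, ← hr, List.drop_append]
    simp
  | false =>
    cases h1 : pre m.1.2 ρ with
    | true =>
      left
      obtain ⟨r, hr⟩ := pre_iff.1 h1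
      refine ⟨true, r, hr.symm, ?_⟩
      unfold mv root
      rw [h0, h1, cond_true, cond_false, cond_true, ← hr, List.drop_append]
      simp
    | false =>
      right
      refine ⟨by unfold mv; rw [h0, h1]; rfl, fun i hi => ?_⟩
      have h2 := pre_iff.2 hi
      cases i
      · exact absurd (h0.symm.trans h2) (by simp)
      · exact absurd (h1.symm.trans h2) (by simp)

theorem mv_root {m : Move} (hm : Valid m) (i : Bool) : mv m (node m i) = root m i := by
  rcases mv_cases m (node m i) with ⟨j, r, h1, h2⟩ | ⟨_, h2⟩
  · have hr : r = [] := by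
      have := congrArg List.length h1
      rw [List.length_append, hm.len, hm.len] at this
      exact List.length_eq_zero_iff.1 (by omega)
    subst hr
    rw [List.append_nil] at h1 h2
    have hij : i = j := hm.inj (Or.inl (by rw [h1]))
    rw [h2, hij]
  · exact absurd (List.prefix_refl _) (h2 i)

theorem mv_short {m : Move} (hm : Valid m) {ρ : List Bool} (h : ρ.length < m.1.1.length) :
    mv m ρ = ρ := by
  rcases mv_cases m ρ with ⟨i, r, h1, _⟩ | ⟨h1, _⟩
  · have := congrArg List.length h1
    rw [List.length_append, hm.len] at this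
    omega
  · exact h1

theorem mv_ge {m : Move} (hm : Valid m) {ρ : List Bool} (h : ρ.length ≤ m.1.1.length) :
    ρ <+: mv m ρ := by
  rcases mv_cases m ρ with ⟨i, r, h1, h2⟩ | ⟨h1, _⟩
  · have h3 := congrArg List.length h1
    rw [List.length_append, hm.len] at h3
    have hr : r = [] := List.length_eq_zero_iff.1 (by omega)
    rw [h2, h1, hr, List.append_nil, List.append_nil]
    exact hm.2.2 i
  · rw [h1]

theorem mv_mono {m : Move} (hm : Valid m) {ρ ρ' : List Bool} (h : ρ <+: ρ') :
    mv m ρ <+: mv m ρ' := by
  rcases mv_cases m ρ with ⟨i, r, h1, h2⟩ | ⟨h1, h2⟩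
  · obtain ⟨t, ht⟩ := h
    rcases mv_cases m ρ' with ⟨j, r', h3, h4⟩ | ⟨_, h4⟩
    · have h5 : node m i ++ (r ++ t) = node m j ++ r' := by
        rw [← h3, ← ht, h1]
        simp only [List.append_assoc]
      obtain ⟨h6, h7⟩ := List.append_inj h5 (by rw [hm.len, hm.len])
      have hij : i = j := hm.inj (Or.inl (by rw [h6]))
      rw [h2, h4, ← hij, ← h7, ← List.append_assoc]
      exact List.prefix_append _ _
    · refine absurd ?_ (h4 i)
      rw [← ht, h1, List.append_assoc]
      exact List.prefix_append _ _
  · rw [h1]
    rcases mv_cases m ρ' with ⟨j, r', h3, h4⟩ | ⟨h3, _⟩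
    · rw [h4]
      have h5 : node m j <+: ρ' := by
        rw [h3]
        exact List.prefix_append _ _
      rcases List.prefix_or_prefix_of_prefix h h5 with h6 | h6
      · exact (h6.trans (hm.2.2 j)).trans (List.prefix_append _ _)
      · exact absurd h6 (h2 j)
    · rw [h3]
      exact h

theorem mv_len {m : Move} (hm : Valid m) (ρ : List Bool) : ρ.length ≤ (mv m ρ).length := by
  rcases mv_cases m ρ with ⟨i, r, h1, h2⟩ | ⟨h1, _⟩
  · have h3 := (hm.2.2 i).length_le
    rw [h2, h1]
    simp only [List.length_append] at h3 ⊢
    omega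
  · rw [h1]

theorem mv_comp_aux {m : Move} (hm : Valid m) {α β r : List Bool} {i : Bool}
    (h1 : α = node m i ++ r) (h2 : mv m α = root m i ++ r)
    (h3 : mv m β = β) (h4 : ∀ i, ¬ node m i <+: β) (h : Comp (mv m α) (mv m β)) :
    Comp α β := by
  rw [h2, h3] at h
  have h5 : node m i <+: root m i ++ r := (hm.2.2 i).trans (List.prefix_append _ _)
  rcases h with h | h
  · exact absurd (h5.trans h) (h4 i)
  · rcases List.prefix_or_prefix_of_prefix h h5 with h6 | h6
    · right
      rw [h1]
      exact h6.trans (List.prefix_append _ _)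
    · exact absurd h6 (h4 i)

theorem mv_comp {m : Move} (hm : Valid m) {α β : List Bool} (h : Comp (mv m α) (mv m β)) :
    Comp α β := by
  rcases mv_cases m α with ⟨i, r, h1, h2⟩ | ⟨h1, h2⟩
  · rcases mv_cases m β with ⟨j, r', h3, h4⟩ | ⟨h3, h4⟩
    · rw [h2, h4] at h
      have hij : i = j := hm.inj (h.down ((hm.2.2 i).trans (List.prefix_append _ _))
        ((hm.2.2 j).trans (List.prefix_append _ _)))
      subst hij
      rw [h1, h3]
      rcases h with h | h
      · exact Or.inl ((List.prefix_append_right_inj _).2
          ((List.prefix_append_right_inj _).1 h))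
      · exact Or.inr ((List.prefix_append_right_inj _).2
          ((List.prefix_append_right_inj _).1 h))
    · exact mv_comp_aux hm h1 h2 h3 h4 h
  · rcases mv_cases m β with ⟨j, r', h3, h4⟩ | ⟨h3, _⟩
    · exact (mv_comp_aux hm h3 h4 h1 h2 h.symm).symm
    · rwa [h1, h3] at h

/-- The re-indexing by a list of moves, the last move being applied first. -/
def emb (M : List Move) (ρ : List Bool) : List Bool := M.foldr mv ρ

theorem emb_snoc (M : List Move) (m : Move) (ρ : List Bool) :
    emb (M ++ [m]) ρ = emb M (mv m ρ) := by
  simp [emb, List.foldr_append]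

theorem emb_mono {M : List Move} (hM : ∀ m ∈ M, Valid m) {ρ ρ' : List Bool} (h : ρ <+: ρ') :
    emb M ρ <+: emb M ρ' := by
  induction M with
  | nil => exact h
  | cons m M ih =>
    exact mv_mono (hM m List.mem_cons_self) (ih fun m' hm' => hM m' (List.mem_cons_of_mem _ hm'))

theorem emb_len {M : List Move} (hM : ∀ m ∈ M, Valid m) (ρ : List Bool) :
    ρ.length ≤ (emb M ρ).length := by
  induction M with
  | nil => exact le_rfl
  | cons m M ih =>
    exact le_trans (ih fun m' hm' => hM m' (List.mem_cons_of_mem _ hm'))
      (mv_len (hM m List.mem_cons_self) _)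

theorem emb_comp {M : List Move} (hM : ∀ m ∈ M, Valid m) {α β : List Bool}
    (h : Comp (emb M α) (emb M β)) : Comp α β := by
  induction M with
  | nil => exact h
  | cons m M ih =>
    exact ih (fun m' hm' => hM m' (List.mem_cons_of_mem _ hm'))
      (mv_comp (hM m List.mem_cons_self) h)

/-! ### Computability -/

theorem prim_mv : Primrec₂ mv := by
  have h11 : Primrec fun a : Move × List Bool => a.1.1.1 :=
    Primrec.fst.comp (Primrec.fst.comp Primrec.fst)
  have h12 : Primrec fun a : Move × List Bool => a.1.1.2 :=
    Primrec.snd.comp (Primrec.fst.comp Primrec.fst)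
  have h21 : Primrec fun a : Move × List Bool => a.1.2.1 :=
    Primrec.fst.comp (Primrec.snd.comp Primrec.fst)
  have h22 : Primrec fun a : Move × List Bool => a.1.2.2 :=
    Primrec.snd.comp (Primrec.snd.comp Primrec.fst)
  refine Primrec.cond (prim_pre.comp h11 Primrec.snd) ?_
    (Primrec.cond (prim_pre.comp h12 Primrec.snd) ?_ Primrec.snd)
  · exact Primrec.list_append.comp h21
      (Primrec.list_drop.comp (Primrec.list_length.comp h11) Primrec.snd)
  · exact Primrec.list_append.comp h22
      (Primrec.list_drop.comp (Primrec.list_length.comp h12) Primrec.snd)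

theorem prim_emb : Primrec₂ emb := by
  refine Primrec.list_foldr (h := fun (_ : List Move × List Bool) (b : Move × List Bool) =>
    mv b.1 b.2) Primrec.fst Primrec.snd ?_
  exact prim_mv.comp (Primrec.fst.comp Primrec.snd) (Primrec.snd.comp Primrec.snd)

end Pool.Agent.H59.Inc
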