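import Pool.Agent.H59.Inc.Lim
import Pool.Agent.H59.Hif.Theta

/-!
# The requirements for thinness, for minimality and for incomparability
-/

set_option autoImplicit false

namespace Pool.Agent.H59.Inc

open Pool.Agent.H77.Thin Pool.Agent.H59.Hif Encodable
open Nat.Partrec (Code)

/-- The string `σ` gives a value at `n` other than the entry of `β`. -/
def dg0 (e : Code) (σ β : List Bool) (n : ℕ) : Bool :=
  (val e σ n).isSome && !decide (val e σ n = (β[n]?).map Bool.toNat)

/-- Some initial segment of `α` gives a value at `n` other than the entry of `β`. -/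
def dg1 (e : Code) (α β : List Bool) (n : ℕ) : Bool :=
  (List.range (α.length + 1)).any fun i => dg0 e (α.take i) β n

/-- The functional with code `e` at `α` gives a value other than the entry of `β`. -/
def dg (e : Code) (α β : List Bool) : Bool :=
  (List.range β.length).any fun n => dg1 e α β n

theorem dg_iff {e : Code} {α β : List Bool} : dg e α β = true ↔
    ∃ n < β.length, ∃ i ≤ α.length, ∃ w, val e (α.take i) n = some w ∧
      (β[n]?).map Bool.toNat ≠ some w := by
  simp only [dg, dg1, dg0, List.any_eq_true, List.mem_range, Bool.and_eq_true,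
    Bool.not_eq_true', decide_eq_false_iff_not, Nat.lt_succ_iff]
  constructor
  · rintro ⟨n, hn, i, hi, h1, h2⟩
    obtain ⟨w, hw⟩ := Option.isSome_iff_exists.1 h1
    refine ⟨n, hn, i, hi, w, hw, fun h3 => h2 ?_⟩
    rw [hw, h3]
  · rintro ⟨n, hn, i, hi, w, hw, h2⟩
    refine ⟨n, hn, i, hi, by rw [hw]; rfl, fun h3 => h2 ?_⟩
    rw [← h3, hw]

theorem dg_mono {e : Code} {α β α' β' : List Bool} (h1 : α <+: α') (h2 : β <+: β')
    (h : dg e α β = true) : dg e α' β' = true := by
  rw [dg_iff] at h ⊢
  obtain ⟨n, hn, i, hi, w, hw, hne⟩ := h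
  have h3 := h1.length_le
  have h4 := h2.length_le
  refine ⟨n, by omega, i, by omega, w, ?_, ?_⟩
  · rw [take_of_prefix h1 hi]; exact hw
  · obtain ⟨t, rfl⟩ := h2
    rw [List.getElem?_append_left hn]
    exact hne

theorem prim_dg0 : Primrec fun a : Code × List Bool × List Bool × ℕ =>
    dg0 a.1 a.2.1 a.2.2.1 a.2.2.2 := by
  have hn : Primrec fun a : Code × List Bool × List Bool × ℕ => a.2.2.2 :=
    Primrec.snd.comp (Primrec.snd.comp Primrec.snd)
  have h1 : Primrec fun a : Code × List Bool × List Bool × ℕ => val a.1 a.2.1 a.2.2.2 :=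
    prim_val2.comp (Primrec.pair Primrec.fst (Primrec.pair (Primrec.fst.comp Primrec.snd) hn))
  have h2 : Primrec fun a : Code × List Bool × List Bool × ℕ =>
      (a.2.2.1[a.2.2.2]?).map Bool.toNat :=
    Primrec.option_map (Primrec.list_getElem?.comp (Primrec.fst.comp
      (Primrec.snd.comp Primrec.snd)) hn) ((Primrec.dom_finite Bool.toNat).comp Primrec.snd)
  exact Primrec.and.comp (Primrec.option_isSome.comp h1) (Primrec.not.comp (prim_beq h1 h2))

theorem prim_dg1 : Primrec fun a : Code × List Bool × List Bool × ℕ =>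
    dg1 a.1 a.2.1 a.2.2.1 a.2.2.2 := by
  have hσ : Primrec fun a : Code × List Bool × List Bool × ℕ => a.2.1 :=
    Primrec.fst.comp Primrec.snd
  have hr : Primrec fun a : Code × List Bool × List Bool × ℕ => a.2.2 :=
    Primrec.snd.comp Primrec.snd
  have h1 : Primrec fun a : Code × List Bool × List Bool × ℕ =>
      List.range (a.2.1.length + 1) :=
    Primrec.list_range.comp (Primrec.succ.comp (Primrec.list_length.comp hσ))
  have h2 : Primrec fun b : (Code × List Bool × List Bool × ℕ) × ℕ =>
      ((b.1.1, b.1.2.1.take b.2, b.1.2.2) : Code × List Bool × List Bool × ℕ) :=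
    Primrec.pair (Primrec.fst.comp Primrec.fst) (Primrec.pair
      (prim_take Primrec.snd (hσ.comp Primrec.fst)) (hr.comp Primrec.fst))
  have h3 : Primrec₂ fun (a : Code × List Bool × List Bool × ℕ) (i : ℕ) =>
      dg0 a.1 (a.2.1.take i) a.2.2.1 a.2.2.2 := prim_dg0.comp h2
  exact prim_any h1 h3

theorem prim_dg : Primrec fun a : Code × List Bool × List Bool => dg a.1 a.2.1 a.2.2 := by
  have h1 : Primrec fun a : Code × List Bool × List Bool => List.range a.2.2.length :=
    Primrec.list_range.comp (Primrec.list_length.comp (Primrec.snd.comp Primrec.snd))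
  have h2 : Primrec fun b : (Code × List Bool × List Bool) × ℕ =>
      ((b.1.1, b.1.2.1, b.1.2.2, b.2) : Code × List Bool × List Bool × ℕ) :=
    Primrec.pair (Primrec.fst.comp Primrec.fst) (Primrec.pair
      (Primrec.fst.comp (Primrec.snd.comp Primrec.fst)) (Primrec.pair
        (Primrec.snd.comp (Primrec.snd.comp Primrec.fst)) Primrec.snd))
  have h3 : Primrec₂ fun (a : Code × List Bool × List Bool) (n : ℕ) =>
      dg1 a.1 a.2.1 a.2.2 n := prim_dg1.comp h2
  exact prim_any h1 h3

/-- The requirements: the left string leaves the `e`-th tree, or the `e`-th functional at the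
left string differs from the right string, or the two strings split for it. -/
def Theta (j : ℕ) (α β : List Bool) : Bool :=
  bif decide (j.unpair.1 = 0) then !tree (Denumerable.ofNat Code j.unpair.2) α else
  bif decide (j.unpair.1 = 1) then dg (Denumerable.ofNat Code j.unpair.2) α β else
    splits (Denumerable.ofNat Code j.unpair.2) α β

theorem Theta_zero (e : Code) (α β : List Bool) :
    Theta (Nat.pair 0 (encode e)) α β = !tree e α := by
  simp [Theta]

theorem Theta_one (e : Code) (α β : List Bool) :
    Theta (Nat.pair 1 (encode e)) α β = dg e α β := by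
  simp [Theta]

theorem Theta_two (e : Code) (α β : List Bool) :
    Theta (Nat.pair 2 (encode e)) α β = splits e α β := by
  simp [Theta]

theorem Theta_mono : ∀ j α β α' β', α <+: α' → β <+: β' → Theta j α β = true →
    Theta j α' β' = true := by
  intro j α β α' β' h1 h2 h
  unfold Theta at h ⊢
  cases hj0 : decide (j.unpair.1 = 0) with
  | true =>
    rw [hj0, cond_true, Bool.not_eq_true'] at h
    rw [cond_true, Bool.not_eq_true']
    by_contra hcon
    rw [Bool.not_eq_false] at hcon
    rw [tree_closed _ _ _ h1 hcon] at h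
    exact absurd h (by simp)
  | false =>
    rw [hj0, cond_false] at h
    rw [cond_false]
    cases hj1 : decide (j.unpair.1 = 1) with
    | true =>
      rw [hj1, cond_true] at h
      rw [cond_true]
      exact dg_mono h1 h2 h
    | false =>
      rw [hj1, cond_false] at h
      rw [cond_false]
      exact splits_mono h1 h2 h

theorem prim_Theta : Primrec fun a : ℕ × List Bool × List Bool => Theta a.1 a.2.1 a.2.2 := by
  have h1 : Primrec fun a : ℕ × List Bool × List Bool => a.1.unpair.1 :=
    Primrec.fst.comp (Primrec.unpair.comp Primrec.fst)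
  have h2 : Primrec fun a : ℕ × List Bool × List Bool => Denumerable.ofNat Code a.1.unpair.2 :=
    (Primrec.ofNat Code).comp (Primrec.snd.comp (Primrec.unpair.comp Primrec.fst))
  refine Primrec.cond (prim_beq h1 (Primrec.const 0)) ?_ (Primrec.cond
    (prim_beq h1 (Primrec.const 1)) ?_ ?_)
  · exact Primrec.not.comp (prim_tree2.comp (Primrec.pair h2 (Primrec.fst.comp Primrec.snd)))
  · exact prim_dg.comp (Primrec.pair h2 Primrec.snd)
  · exact prim_splits.comp (Primrec.pair h2 Primrec.snd)

/-- The tree of the class. -/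
def TT : List Bool → Bool := down (tp Theta)

theorem prim_TT : Primrec TT := prim_down (prim_tp prim_Theta)

theorem TT_closed (σ τ : List Bool) (h : σ <+: τ) (hτ : TT τ = true) : TT σ = true :=
  down_closed σ τ h hτ

/-- The limit embedding for the requirements. -/
noncomputable def LL (ρ : List Bool) : List Bool := lim Theta_mono ρ

theorem LL_mono {ρ ρ' : List Bool} (h : ρ <+: ρ') : LL ρ <+: LL ρ' := lim_mono Theta_mono h

theorem LL_len (ρ : List Bool) : ρ.length ≤ (LL ρ).length := lim_len Theta_mono ρ

theorem mem_TT {z : ℕ → Bool} : z ∈ paths TT ↔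
    ∀ k, ∃ ρ : List Bool, ρ.length = k ∧ Ini (LL ρ) z := mem_class' Theta_mono

theorem LL_member (ρ : List Bool) : ∃ z ∈ paths TT, Ini (LL ρ) z := exists_member Theta_mono ρ

theorem LL_unique {z : ℕ → Bool} {α β : List Bool} (h1 : Ini (LL α) z) (h2 : Ini (LL β) z) :
    Comp α β := node_unique Theta_mono h1 h2

theorem LL_prefix {z : ℕ → Bool} {α β : List Bool} (h1 : Ini (LL α) z) (h2 : Ini (LL β) z)
    (h : α.length ≤ β.length) : α <+: β := by
  rcases LL_unique h1 h2 with h3 | h3
  · exact h3
  · rw [h3.eq_of_length (le_antisymm h3.length_le h)]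

theorem LL_main {a₀ a₁ : List Bool} (hl : a₁.length = a₀.length) (hne : a₀ ≠ a₁) {j : ℕ}
    (hj : j ≤ a₀.length) :
    Theta j (LL a₀) (LL a₁) = true ∨
      ∀ τ₀ τ₁, a₀ <+: τ₀ → a₁ <+: τ₁ → Theta j (LL τ₀) (LL τ₁) = false :=
  lim_main Theta_mono hl hne hj

end Pool.Agent.H59.Inc
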